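import Pool.Agent.N483.KM.Stm
import Pool.Agent.R755.KF.K1
import Pool.Agent.R755.KF.K3

/-!
# KM/WIN: the window around the maximal fibre (helper434)
-/

set_option autoImplicit false

namespace Pool.Agent.N434.KM

open MeasureTheory Set Filter Topology
open scoped ENNReal InnerProductSpace
open Pool.Agent.R754.KG (E un sl Rv R_nonneg)
open Pool.Agent.R755.KF (CB geo S_GEO)
open Pool.Agent.R755.KF.K3aux (tail1 chg)
open Pool.Agent.R683.KFx

theorem win : Pool.Agent.N483.KM.S_WIN := by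
  intro d
  have hd0 : (0 : ℝ) < 2 * ((d : ℝ) + 1) := by positivity
  refine ⟨Real.exp (-1) / 2 / (2 * ((d : ℝ) + 1)) ^ d, by positivity, ?_⟩
  intro δ hδ hδ1 N K ts hK hmax
  obtain ⟨a, ha⟩ : ∃ a : ℝ, a = Real.exp (-((d : ℝ) + 1)) := ⟨_, rfl⟩
  obtain ⟨g, hg⟩ : ∃ g : ℝ, g = δ / (2 * ((d : ℝ) + 1)) := ⟨_, rfl⟩
  obtain ⟨S, hS⟩ : ∃ S : ℝ, S = Rv K ts := ⟨_, rfl⟩
  have hS0 : 0 ≤ S := by rw [hS]; exact R_nonneg _
  have ha0 : 0 < a := by rw [ha]; exact Real.exp_pos _
  have hg0 : 0 < g := by rw [hg]; positivity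
  have hg1 : g < 1 := by
    rw [hg, div_lt_one hd0]
    have : (0 : ℝ) ≤ d := Nat.cast_nonneg d
    linarith
  have ha2 : a ^ 2 = Real.exp (-(2 * ((d : ℝ) + 1))) := by
    rw [ha, ← Real.exp_nat_mul]
    congr 1
    push_cast
    ring
  have ha21 : a ^ 2 ≤ 1 := by
    rw [ha2]
    exact Real.exp_le_one_iff.2 (by linarith)
  have had : a * 2 ^ d ≤ 1 / 2 := by
    have h1 : Real.exp (-1) ≤ 1 / 2 := by
      rw [Real.exp_neg, one_div]
      apply inv_anti₀ (by norm_num)
      have := Real.add_one_le_exp (1 : ℝ)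
      linarith
    have h2 : a = Real.exp (-1) ^ (d + 1) := by
      rw [ha, ← Real.exp_nat_mul]
      congr 1
      push_cast
      ring
    have h3 : Real.exp (-1) ^ (d + 1) ≤ (1 / 2) ^ (d + 1) :=
      pow_le_pow_left₀ (Real.exp_pos _).le h1 _
    calc a * 2 ^ d ≤ (1 / 2) ^ (d + 1) * 2 ^ d := by
          rw [h2]
          exact mul_le_mul_of_nonneg_right h3 (by positivity)
      _ = 1 / 2 := by
          rw [pow_succ, mul_right_comm, ← mul_pow]
          norm_num
  -- the sets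
  obtain ⟨W, hW⟩ : ∃ W : Set (E d), W = {t | a ^ 2 * S ≤ Rv K t} := ⟨_, rfl⟩
  have hWm : MeasurableSet W := by
    rw [hW]
    exact (Pool.Agent.R683.KFx.R_meas hK) measurableSet_Ici
  obtain ⟨J, hJ⟩ : ∃ J : Set (E d), J = {t | ts + g⁻¹ • (t - ts) ∈ W} := ⟨_, rfl⟩
  have hJm : MeasurableSet J := by
    rw [hJ]
    have : Continuous fun t : E d => ts + g⁻¹ • (t - ts) := by fun_prop
    exact this.measurable hWm
  have hJlow : ∀ t ∈ J, Real.exp (-δ) * Rv K ts ≤ Rv K t := by
    intro t ht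
    rw [hJ, mem_ofPred_eq, hW, mem_ofPred_eq] at ht
    have h1 := geo N d K hK ts (ts + g⁻¹ • (t - ts)) g hg0 hg1
    have e1 : (1 - g) • ts + g • (ts + g⁻¹ • (t - ts)) = t := by
      rw [smul_add, smul_smul, mul_inv_cancel₀ hg0.ne', one_smul, sub_smul, one_smul]
      abel
    rw [e1] at h1
    refine le_trans ?_ h1
    rw [← hS]
    have h2 : (a ^ 2 * S) ^ g ≤ Rv K (ts + g⁻¹ • (t - ts)) ^ g :=
      Real.rpow_le_rpow (by positivity) ht hg0.le
    have h3 : Real.exp (-δ) * S = S ^ (1 - g) * (a ^ 2 * S) ^ g := by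
      rw [Real.mul_rpow (sq_nonneg a) hS0]
      have e2 : (a ^ 2) ^ g = Real.exp (-δ) := by
        rw [ha2, ← Real.exp_mul, hg]
        congr 1
        field_simp
      rw [e2]
      have e3 : S ^ (1 - g) * S ^ g = S := by
        rcases hS0.lt_or_eq with h | h
        · rw [← Real.rpow_add h, sub_add_cancel, Real.rpow_one]
        · rw [← h, Real.zero_rpow hg0.ne', mul_zero]
      calc Real.exp (-δ) * S = Real.exp (-δ) * (S ^ (1 - g) * S ^ g) := by rw [e3]
        _ = _ := by ring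
    rw [h3]
    exact mul_le_mul_of_nonneg_left h2 (Real.rpow_nonneg hS0 _)
  refine ⟨J, hJm, ?_, hJlow, ?_⟩
  · rw [hJ, mem_ofPred_eq, sub_self, smul_zero, add_zero, hW, mem_ofPred_eq, ← hS]
    exact mul_le_of_le_one_left hS0 ha21
  -- the mass
  have hvJ : volume J = ENNReal.ofReal (g ^ d) * volume W := by
    have h1 := chg g hg0 ts (J.indicator fun _ => (1 : ℝ≥0∞))
    rw [lintegral_indicator hJm, setLIntegral_const, one_mul] at h1
    rw [h1]
    congr 1
    have h2 : (fun t : E d => J.indicator (fun _ => (1 : ℝ≥0∞)) (ts + g • (t - ts))) =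
        W.indicator fun _ => 1 := by
      funext t
      have h3 : ts + g • (t - ts) ∈ J ↔ t ∈ W := by
        rw [hJ, mem_ofPred_eq, add_sub_cancel_left, smul_smul, inv_mul_cancel₀ hg0.ne', one_smul,
          add_sub_cancel]
      by_cases h : t ∈ W
      · rw [indicator_of_mem h, indicator_of_mem (h3.2 h)]
      · rw [indicator_of_notMem h, indicator_of_notMem (fun h' => h (h3.1 h'))]
    rw [h2, lintegral_indicator hWm, setLIntegral_const, one_mul]
  have hlow : ENNReal.ofReal (Real.exp (-δ) * S) * volume J ≤ ∫⁻ t in J, volume (sl K t) := by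
    rw [← setLIntegral_const]
    refine setLIntegral_mono' hJm fun t ht => ?_
    rw [Pool.Agent.R683.KFx.R_vol hK t]
    refine ENNReal.ofReal_le_ofReal ?_
    rw [hS]
    exact hJlow t ht
  have hup : volume K ≤ 2 * (ENNReal.ofReal S * volume W) := by
    have h1 := tail1 (ρ := 0) (S := S) (a := a) geo hK ha0.le (ts := ts)
      (by rw [sub_zero, one_mul, hS])
    rw [sub_zero, one_mul] at h1
    have h2 : {t : E d | Rv K t < a ^ 2 * S} = Wᶜ := by
      rw [hW]
      ext t
      simp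
    rw [h2] at h1
    have h3 : ∫⁻ t in W, volume (sl K t) ≤ ENNReal.ofReal S * volume W := by
      rw [← setLIntegral_const]
      refine setLIntegral_mono' hWm fun t _ => ?_
      rw [Pool.Agent.R683.KFx.R_vol hK t]
      refine ENNReal.ofReal_le_ofReal ?_
      rw [hS]
      exact hmax t
    have h4 : volume K = (∫⁻ t in W, volume (sl K t)) + ∫⁻ t in Wᶜ, volume (sl K t) := by
      rw [lintegral_add_compl _ hWm, ← Pool.Agent.R683.KFx.vol_fub hK]
    have h5 : ENNReal.ofReal (a * 2 ^ d) * volume K ≤ ENNReal.ofReal (1 / 2) * volume K :=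
      mul_le_mul_left (ENNReal.ofReal_le_ofReal had) _
    have hKf : volume K ≠ ⊤ := Pool.Agent.R683.KFx.kfin hK
    have h6 : volume K ≤ ENNReal.ofReal S * volume W + ENNReal.ofReal (1 / 2) * volume K := by
      calc volume K = (∫⁻ t in W, volume (sl K t)) + ∫⁻ t in Wᶜ, volume (sl K t) := h4
        _ ≤ _ := add_le_add h3 (h1.trans h5)
    have h7 : volume K = ENNReal.ofReal (1 / 2) * volume K + ENNReal.ofReal (1 / 2) * volume K := by
      rw [← add_mul, ← ENNReal.ofReal_add (by norm_num) (by norm_num)]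
      norm_num
    have h8 : ENNReal.ofReal (1 / 2) * volume K ≤ ENNReal.ofReal S * volume W := by
      have hfin : ENNReal.ofReal (1 / 2) * volume K ≠ ⊤ :=
        ENNReal.mul_ne_top ENNReal.ofReal_ne_top hKf
      have h9 : ENNReal.ofReal (1 / 2) * volume K + ENNReal.ofReal (1 / 2) * volume K ≤
          ENNReal.ofReal S * volume W + ENNReal.ofReal (1 / 2) * volume K := by
        rw [← h7]; exact h6
      exact (ENNReal.add_le_add_iff_right hfin).1 h9
    calc volume K = ENNReal.ofReal (1 / 2) * volume K + ENNReal.ofReal (1 / 2) * volume K := h7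
      _ ≤ ENNReal.ofReal S * volume W + ENNReal.ofReal S * volume W := add_le_add h8 h8
      _ = _ := (two_mul _).symm
  refine le_trans ?_ hlow
  rw [hvJ]
  refine (mul_le_mul_right hup _).trans ?_
  have e5 : ENNReal.ofReal (Real.exp (-1) / 2 / (2 * ((d : ℝ) + 1)) ^ d * δ ^ d) *
      (2 * (ENNReal.ofReal S * volume W)) =
      ENNReal.ofReal (Real.exp (-1) / 2 / (2 * ((d : ℝ) + 1)) ^ d * δ ^ d * 2 * S) *
        volume W := by
    obtain ⟨c, hc⟩ : ∃ c : ℝ, c = Real.exp (-1) / 2 / (2 * ((d : ℝ) + 1)) ^ d * δ ^ d := ⟨_, rfl⟩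
    have hc0 : 0 ≤ c := by rw [hc]; positivity
    rw [← hc, ENNReal.ofReal_mul (by positivity : (0 : ℝ) ≤ c * 2), ENNReal.ofReal_mul hc0]
    have : ENNReal.ofReal 2 = 2 := by norm_num
    rw [this]
    ring
  rw [e5, ← mul_assoc, ← ENNReal.ofReal_mul (by positivity)]
  refine mul_le_mul_left (ENNReal.ofReal_le_ofReal ?_) _
  have e6 : Real.exp (-1) / 2 / (2 * ((d : ℝ) + 1)) ^ d * δ ^ d * 2 * S =
      Real.exp (-1) * (g ^ d * S) := by
    rw [hg, div_pow]
    ring
  have e7 : Real.exp (-1) ≤ Real.exp (-δ) := Real.exp_le_exp.2 (by linarith)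
  rw [e6]
  calc Real.exp (-1) * (g ^ d * S) ≤ Real.exp (-δ) * (g ^ d * S) :=
        mul_le_mul_of_nonneg_right e7 (by positivity)
    _ = Real.exp (-δ) * S * g ^ d := by ring

end Pool.Agent.N434.KM
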